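import Pool.Agent.Run7.h25.GS.Fin

/-!
# The Hopf sign for submanifolds of codimension three in spaces of nonpositive curvature operator

The curvature tensor of a submanifold is, by the Gauss equation, the sum of the restriction `R₀` of
the curvature tensor of the ambient space to the tangent space `V` and of the tensor `extR β` of the
second fundamental form `β`, a symmetric bilinear map from `V` to the normal space. If the normal
space is an orthogonal sum and `β_i` are the components of `β`, then the second part is the sum of the
tensors `extR β_i`.

1. Structure of the second fundamental forms `β` with nonpositive extrinsic curvatures. If the values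
   of `β` are in a space of dimension at most two, then the curvature operator of `extR β` is
   nonpositive. If they are in a space of dimension three, then the same holds, or the nullity space of
   `β` has codimension at most four.
2. The sign of the Gauss–Bonnet–Chern integrand, in every even dimension, if the curvature operator of
   the ambient space is nonpositive (at most `-δ`) and the normal spaces are of dimension at most three
   with nonpositive extrinsic curvatures, or more generally orthogonal sums of two such spaces and of
   any number of such spaces of dimension at most two.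
3. The integrated form.

Proof of 1. Let `T` be a subspace with `β(T, T) = 0`. For `y`, `y'` in `T` one has
`4 ⟨β(y, v), β(y', v')⟩ ≤ |β(y, v') + β(y', v)|²`. If `β(y, ·)` is onto for some `y` in `T`, or if
`β(·, v)` maps `T` onto the span of `β(T, V)`, then it follows that the operators which relate the maps
`β(y, ·)`, or `β(·, v)`, to one another are symmetric and commute. A common eigenvector yields `y ≠ 0`
with `β(y, ·) = u w`, `w` a vector; then `⟨w, β⟩ = u a + a u` for some `a`, which contributes
`-(u ∧ a)²`, and the part of `β` orthogonal to `w` has nonpositive extrinsic curvatures, too. In the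
remaining case the nullity space has codimension five, `T` is a plane and an operator on the normal
space has three different eigenvalues; the symmetry of the operators for three other asymptotic planes
shows that all three components of `β` are products of linear functions.
-/

set_option autoImplicit false

namespace Pool.Agent.Results.MP_5a30bb_gt.CodimensionThree

open Pool.Agent.W666.GB Pool.Agent.W669.HD MeasureTheory

variable {V W : Type} [NormedAddCommGroup V] [InnerProductSpace ℝ V]
  [NormedAddCommGroup W] [InnerProductSpace ℝ W] {m : ℕ}

/-- second fundamental forms: symmetric bilinear maps from the tangent space `V` to the normal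
space `W` -/
structure SecondForm (β : V → V → W) : Prop where
  symm : ∀ x y, β x y = β y x
  add : ∀ x x' y, β (x + x') y = β x y + β x' y
  smul : ∀ (t : ℝ) (x y : V), β (t • x) y = t • β x y

/-- the part of the curvature tensor given by the second fundamental form (Gauss equation) -/
noncomputable def extR (β : V → V → W) (x y z w : V) : ℝ :=
  inner ℝ (β x z) (β y w) - inner ℝ (β x w) (β y z)

/-- second fundamental forms with values in a space of dimension at most `p` and nonpositive
extrinsic sectional curvatures -/
structure NonposForm (p : ℕ) (β : V → V → W) : Prop where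
  form : SecondForm β
  dim : Module.finrank ℝ W ≤ p
  sec : ∀ x y : V, inner ℝ (β x x) (β y y) - ‖β x y‖ ^ 2 ≤ 0

/-- the bilinear map -/
def SecondForm.map {β : V → V → W} (h : SecondForm β) : V →ₗ[ℝ] V →ₗ[ℝ] W :=
  LinearMap.mk₂ ℝ β h.add h.smul
    (fun x y y' => by rw [h.symm, h.add, h.symm y, h.symm y'])
    (fun t x y => by rw [h.symm, h.smul, h.symm y])

/-- `R` is the curvature tensor of a submanifold: the ambient curvature operator is at most `-δ` on
the bivectors of the tangent space, and the normal space is the orthogonal sum of two spaces of
dimension at most three and of some number `k` of spaces of dimension at most two, in each of which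
the second fundamental form has nonpositive extrinsic curvatures. -/
def SplitCodim (δ : ℝ) (R : V → V → V → V → ℝ) : Prop :=
  ∃ (β β' : V → V → EuclideanSpace ℝ (Fin 3)) (k : ℕ)
    (γ : Fin k → V → V → EuclideanSpace ℝ (Fin 2)) (R₀ : V → V → V → V → ℝ),
    NonposForm 3 β ∧ NonposForm 3 β' ∧ (∀ i, NonposForm 2 (γ i)) ∧ AlgCurv R₀ ∧
    OpNonneg (negT (addT R₀ fun x y z w => δ * unitT x y z w)) ∧
    ∀ x y z w, R x y z w =
      extR β x y z w + extR β' x y z w + ∑ i, extR (γ i) x y z w + R₀ x y z w

theorem NonposForm.sec' {p : ℕ} {β : V → V → W} (h : NonposForm p β) (x y : V) :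
    Pool.Agent.Y489.SM.gauss h.form.map x y x y ≤ 0 := by
  rw [Pool.Agent.Y489.SM.gauss_sec h.form.symm]
  exact h.sec x y

/-- **The Singer–Hopf sign for submanifolds of codimension at most three** in spaces of nonpositive
curvature operator: the structure of the second fundamental forms, the pointwise inequality and the
integrated form, in every even dimension. -/
theorem result :
    (∀ (V W : Type) [NormedAddCommGroup V] [InnerProductSpace ℝ V] [FiniteDimensional ℝ V]
      [NormedAddCommGroup W] [InnerProductSpace ℝ W] [FiniteDimensional ℝ W] (β : V → V → W),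
      (NonposForm 2 β → OpNonneg (negT (extR β))) ∧
      (NonposForm 3 β → OpNonneg (negT (extR β)) ∨
        ∃ U : Submodule ℝ V, Module.finrank ℝ U ≤ 4 ∧ ∀ x ∈ Uᗮ, ∀ y, β x y = 0)) ∧
    (∀ (m : ℕ) (V : Type) [NormedAddCommGroup V] [InnerProductSpace ℝ V]
      (e : OrthonormalBasis (Fin m × Bool) ℝ V) (R : V → V → V → V → ℝ) (δ : ℝ),
      0 ≤ δ → SplitCodim δ R → roundGB m δ ≤ (-1) ^ m * gbc e R) ∧
    (∀ (m : ℕ) (M : Type) [MeasurableSpace M] (μ : Measure M) (K : CurvField m M) (δ : M → ℝ),
      (∀ p, 0 ≤ δ p ∧ SplitCodim (δ p) (K.R p)) →
      0 ≤ (-1) ^ m * ∫ p, K.gb p ∂μ ∧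
        (Integrable K.gb μ → ∫ p, roundGB m (δ p) ∂μ ≤ (-1) ^ m * ∫ p, K.gb p ∂μ)) := by
  have h1 : ∀ (m : ℕ) (V : Type) [NormedAddCommGroup V] [InnerProductSpace ℝ V]
      (e : OrthonormalBasis (Fin m × Bool) ℝ V) (R : V → V → V → V → ℝ) (δ : ℝ),
      0 ≤ δ → SplitCodim δ R → roundGB m δ ≤ (-1) ^ m * gbc e R := by
    rintro m V _ _ e R δ hδ ⟨β, β', k, γ, R₀, h, h', hγ, hR₀, hop, hR⟩
    exact Pool.Agent.Run7.H25.GS.split_bound e h.form.map h'.form.map
      (fun i => (hγ i).form.map) (by simp) (by simp) (by simp) h.form.symm
      h'.form.symm (fun i => (hγ i).form.symm) h.sec' h'.sec' (fun i => (hγ i).sec') hδ hR₀ hop hR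
  refine ⟨?_, h1, fun m M _ μ K δ h => ?_⟩
  · intro V W _ _ _ _ _ _ β
    refine ⟨fun h => ?_, fun h => ?_⟩
    · exact Pool.Agent.Run7.H25.GS.neg_two (β := h.form.map) h.form.symm h.sec' h.dim
    · rcases Pool.Agent.Run7.H25.GS.main_three (β := h.form.map) h.form.symm h.sec' h.dim with
        h2 | h2
      · exact Or.inl h2
      · refine Or.inr ⟨_, h2, fun x hx y => ?_⟩
        rw [Submodule.orthogonal_orthogonal, LinearMap.mem_ker] at hx
        exact congrArg (fun f => f y) hx
  · exact Pool.Agent.Y489.SM.integrated μ K δ (fun p => (h p).1)
      fun p => h1 m (K.V p) (K.e p) (K.R p) (δ p) (h p).1 (h p).2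

end Pool.Agent.Results.MP_5a30bb_gt.CodimensionThree
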