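import Pool.Agent.Run7.h512.EK.Pt
import Pool.Agent.TH594.HP.Field

/-!
# The Hopf sign for Einstein six-manifolds with four-nonpositive curvature operator

Let `R` be an Einstein curvature tensor on a Euclidean space of dimension six (any Einstein constant)
whose curvature operator is four-nonpositive: the sum of its four largest eigenvalues is not positive.
Then the Gauss-Bonnet-Chern integrand of `R` is not positive, and it is negative as soon as the
curvature operator has a positive eigenvalue. So a closed Einstein six-manifold with four-nonpositive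
curvature operator has `χ(M) ≤ 0`, the sign of the Hopf conjecture. No bound on the sectional curvature
by a multiple of the Einstein constant is assumed.

For a nonpositive curvature operator the sign is classical; for Einstein tensors with sectional
curvature `≤ 0` alone the pointwise sign fails.

The proof: in an orthonormal basis of eigenforms `g_p` of `-R`, with eigenvalues `λ_p`, the first
Bianchi identity and the Einstein condition say `∑ λ_p g_p ∧ g_p = 0` and `∑ λ_p g_p² = -ρ`. The
integrand is the cubic form `∑ λ_p λ_q λ_r (g_p ∧ g_q ∧ g_r)²`; after the shift of the eigenvalues by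
the least one it is estimated with the identities that the sums of `(g_p ∧ g_q ∧ g_r)²` over an
orthonormal basis satisfy.
-/

set_option autoImplicit false

namespace Pool.Agent.Results.MP_5a30bb_gt.FourNonpositiveEinstein

open MeasureTheory Run7.h512.EK
open Pool.Agent.TH594.HE (Einstein Sk)
open Pool.Agent.W666.GB (AlgCurv gbc CurvField)

/-- Einstein tensors with four-nonpositive curvature operator in dimension six. -/
theorem result :
    (∀ (V : Type) [NormedAddCommGroup V] [InnerProductSpace ℝ V]
      (e : OrthonormalBasis (Fin 3 × Bool) ℝ V) (R : V → V → V → V → ℝ), AlgCurv R →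
      ∀ κ : ℝ, Einstein e R (-κ) → KNonpos 4 e R →
        gbc e R ≤ 0 ∧ ((∃ α, Sk α ∧ 0 < curvQ e R α) → gbc e R < 0)) ∧
    (∀ (M : Type) [MeasurableSpace M] (μ : Measure M) (K : CurvField 3 M) (κ : M → ℝ),
      (∀ p, Einstein (K.e p) (K.R p) (-(κ p)) ∧ KNonpos 4 (K.e p) (K.R p)) →
        ∫ p, K.gb p ∂μ ≤ 0 ∧
          (Integrable K.gb μ → μ {p | ∃ α, Sk α ∧ 0 < curvQ (K.e p) (K.R p) α} ≠ 0 →
            ∫ p, K.gb p ∂μ < 0)) := by
  have hpt : ∀ (V : Type) [NormedAddCommGroup V] [InnerProductSpace ℝ V]
      (e : OrthonormalBasis (Fin 3 × Bool) ℝ V) (R : V → V → V → V → ℝ), AlgCurv R →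
      ∀ κ : ℝ, Einstein e R (-κ) → KNonpos 4 e R →
        gbc e R ≤ 0 ∧ ((∃ α, Sk α ∧ 0 < curvQ e R α) → gbc e R < 0) := by
    intro V _ _ e R hR κ hE h4
    obtain ⟨h1, h2⟩ := pt_sign e hR hE h4
    refine ⟨by linarith, fun h => ?_⟩
    have := h2 h
    linarith
  refine ⟨hpt, ?_⟩
  intro M _ μ K κ h
  have h0 : ∀ p, 0 ≤ -(K.gb p) := fun p => by
    have := (hpt (K.V p) (K.e p) (K.R p) (K.curv p) (κ p) (h p).1 (h p).2).1
    unfold CurvField.gb
    linarith
  constructor
  · have h1 : 0 ≤ ∫ p, -(K.gb p) ∂μ := integral_nonneg h0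
    rw [integral_neg] at h1
    linarith
  · intro hi hμ
    have h1 : 0 < ∫ p, -(K.gb p) ∂μ := by
      refine Pool.Agent.TH594.HP.pos_of μ _ h0 hi.neg _ ?_ hμ
      intro p hp
      have := (hpt (K.V p) (K.e p) (K.R p) (K.curv p) (κ p) (h p).1 (h p).2).2 hp
      unfold CurvField.gb
      linarith
    rw [integral_neg] at h1
    linarith

end Pool.Agent.Results.MP_5a30bb_gt.FourNonpositiveEinstein
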