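import Pool.Agent.Run7.h820.HQ.Cor

/-!
# The Hopf sign for squares of Hermitian forms and split curvature operators

`J` is a linear complex structure of the tangent space (`J² = -1`), not necessarily orthogonal.

`SymForm h`: symmetric bilinear form; `knSq h (x,y,z,w) = h(x,z) h(y,w) - h(x,w) h(y,z)`, the form
which `h` induces on bivectors. `OpNonneg K`: the form `K` on bivectors is nonnegative.

`JSplit J N`: `N` is an algebraic curvature tensor with `N(Jx,Jy,Jz,Jw) = N(x,y,z,w)` whose
curvature operator is nonnegative on the `J`-invariant bivectors and nonpositive on the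
`J`-anti-invariant ones.

`HermData J h q N T`: `T = N + ∑ knSq h_k - ∑ knSq q_l`, with any number of symmetric forms `h_k` of
ANY signature with `h_k(Jx,Jy) = h_k(x,y)`, any number of symmetric forms `q_l` with
`q_l(Jx,Jy) = - q_l(x,y)`, and `JSplit J N`. `HermClass T`: this holds for some `J` and some data;
`HermClassPos T`: moreover some `h_k` is nondegenerate.

`SemiData J h A P T`: `T = P + ∑ knSq h_k + ∑ skewCurv A_l`, with `h_k` positive semidefinite and
`J`-invariant, `A_l` positive semidefinite forms of type `(1,1)` (`A(Jx,Jy) = A(x,y)`,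
`A(x,Jx) ≥ 0`), any number of each, and `P` a curvature tensor of Kähler type with nonnegative
curvature operator; `skewCurv A (x,y,z,w) = 2 A(x,y) A(z,w) + A(x,z) A(y,w) - A(x,w) A(y,z)`, with
sectional curvatures `3 A(x,y)²`.

`GraySplit J κ T`: `T` is a curvature tensor with Gray's identity `T(Jx,Jy,Jz,Jw) = T(x,y,z,w)`
whose curvature operator is at least `κ` on the `J`-invariant bivectors and at most `κ` on the
`J`-anti-invariant ones.

(1) In every even dimension `2 m`: if `-R` is in the class, then `(-1)^m` times the
Gauss–Bonnet–Chern integrand of `R` is nonnegative, and positive if some `h_k` is nondegenerate.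
(2) The integrated forms, for fields of curvature tensors (the `J`, `h_k`, `q_l`, `N` may depend on
the point in any way, also in number).
(3) `SemiData` tensors `-R` are in the class, and `R` has nonpositive sectional curvature.
(4) `GraySplit J κ (-R)` with `J` orthogonal and `κ ≥ 0` implies that `-R` is in the class.

For three skew forms without a common complex structure (3) fails in dimension six
(`Pool.Agent.Results.MP_5a30bb_gt.TwoSkewForms`).

The integrand is a Gaussian mean of determinants of matrices which commute with a quaternionic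
structure (Study determinants), and these are nonnegative.
-/

set_option autoImplicit false

namespace Pool.Agent.Results.MP_5a30bb_gt.HermitianSquares

open MeasureTheory Pool.Agent.W666.GB Pool.Agent.Run7.h820.HQ

theorem result :
    (∀ (m : ℕ) (V : Type) [NormedAddCommGroup V] [InnerProductSpace ℝ V]
      (e : OrthonormalBasis (Fin m × Bool) ℝ V) (R : V → V → V → V → ℝ),
      (HermClass (fun x y z w => -R x y z w) → 0 ≤ (-1) ^ m * gbc e R) ∧
      (HermClassPos (fun x y z w => -R x y z w) → 0 < (-1) ^ m * gbc e R)) ∧
    (∀ (m : ℕ) (M : Type) [MeasurableSpace M] (μ : Measure M) (K : CurvField m M),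
      (∀ p, HermClass (fun x y z w => -K.R p x y z w)) →
      0 ≤ (-1) ^ m * ∫ p, K.gb p ∂μ ∧
        (Integrable K.gb μ → μ {p | HermClassPos (fun x y z w => -K.R p x y z w)} ≠ 0 →
          0 < (-1) ^ m * ∫ p, K.gb p ∂μ)) ∧
    (∀ (V : Type) [NormedAddCommGroup V] [InnerProductSpace ℝ V] (J : V →ₗ[ℝ] V)
      (R P : V → V → V → V → ℝ) (a b : ℕ) (h : Fin a → V → V → ℝ) (A : Fin b → V → V → ℝ),
      (∀ x, J (J x) = -x) → SemiData J h A P (fun x y z w => -R x y z w) →
      HermClass (fun x y z w => -R x y z w) ∧
        ((∃ k, ∀ x, x ≠ 0 → 0 < h k x x) → HermClassPos (fun x y z w => -R x y z w)) ∧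
        ∀ x y, R x y x y ≤ 0) ∧
    (∀ (V : Type) [NormedAddCommGroup V] [InnerProductSpace ℝ V] (J : V →ₗ[ℝ] V) (κ : ℝ)
      (R : V → V → V → V → ℝ), (∀ x, J (J x) = -x) →
      (∀ x y, inner ℝ (J x) (J y) = inner ℝ x y) → 0 ≤ κ →
      GraySplit J κ (fun x y z w => -R x y z w) →
      HermClass (fun x y z w => -R x y z w) ∧
        (0 < κ → HermClassPos (fun x y z w => -R x y z w))) :=
  ⟨fun _ _ _ _ e _ => ⟨fun h => class_sign e h, fun h => class_sign_pos e h⟩,
    fun _ _ _ μ K h => field_sign μ K h,
    fun _ _ _ _ _ _ _ _ _ _ hJ h => ⟨(h.cls hJ).1, (h.cls hJ).2, fun x y => by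
      have := h.sec x y
      linarith⟩,
    fun _ _ _ _ _ _ hJ hJi hκ h => h.cls hJ hJi hκ⟩

end Pool.Agent.Results.MP_5a30bb_gt.HermitianSquares
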