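import Pool.Agent.Run7.h951.Hyp.Cont

/-!
# The Hopf sign for nonpositive curvature operators of the second kind and for sums of causal
curvature tensors of arbitrary codimension

Conventions: `R x y x y` is the sectional curvature of an orthonormal pair, `unitT` the tensor of
constant curvature one, `gbc e R` the Gauss–Bonnet–Chern integrand, `roundGB m δ` its absolute value
for the constant curvature `- δ`.

`second e R h = ∑ R(e_i, e_k, e_l, e_j) h_ij h_kl` is the curvature operator of the second kind, a
quadratic form in the symmetric tensor `h` (for the unit tensor it is `|h|² - (tr h)²`).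

`SecondLe e δ R`: it is at most `- δ |h|²` on the traceless symmetric tensors.

`LorentzR e R`: all sectional curvatures are nonpositive, and the operator of the second kind is
nonpositive on SOME hyperplane of the space of all symmetric tensors (it has at most one positive
eigenvalue there).

`CausalOn ⊤ N S`: `S(x,y,z,w) = ∑ (β_k(x,z) β_k(y,w) - β_k(x,w) β_k(y,z)) - (b(x,z) b(y,w) -
b(x,w) b(y,z))` for symmetric bilinear forms `b, β_1, …, β_N` such that `(b(x,x), β_1(x,x), …,
β_N(x,x))` lies in the closed future light cone of `ℝ ⊕ ℝᴺ` for all `x`. The codimension `N` is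
arbitrary.

`ConeSum e δ R`: `R` is a sum of any number of tensors of the last two types, minus `δ · unitT`.

(1) In every even dimension `2 m`, if `ConeSum e δ R` with `δ ≥ 0` then `(-1)^m` times the
Gauss–Bonnet–Chern integrand of `R` is at least its value for constant curvature `-δ`.
(2) If `ConeSum e 0 R`, in any dimension, then the restriction of `R` to every even-dimensional
subspace has the sign of the Hopf conjecture.
(3), (4) Integrated forms.
(5), (6) The same for operators of the second kind which are at most `-δ`.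
(7) Submanifolds of arbitrary codimension with `|II(x,x)|² ≤ (c - δ) |x|⁴` of spaces whose
curvature tensor satisfies `ConeSum e c` on the tangent space, for instance of spaces of constant
curvature `- c`.
(8) `ConeSum` contains the class `CausalBlocks` of the starting result `CausalSecondForm`, in which
the codimensions are small and the blocks orthogonal to each other.

Proof (`Pool/Agent/Run7/h951/Hyp/`): let `(t_i, x_i)` be variables in Lorentzian spaces, `B` a
linear pencil of symmetric matrices which is positive definite on the product of the closed light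
cones, `p = det B`. A theorem of Lieb–Sokal type is proved: `exp (- ∑ (∂_{t_i}² - ∑ ∂_{x_ij}²))`
preserves the polynomials without zeros in the tube over the product of the light cones (which may
have any dimensions). A homogeneous polynomial of degree `2 m` which is positive at the base point
therefore satisfies `(∑ (∂_{t_i}² - ∑ ∂_{x_ij}²))^m p ≥ 0`, and for `p = det B` this number is,
up to a positive factor, `(-1)^m` times the Gauss–Bonnet–Chern integrand.
-/

set_option autoImplicit false

namespace Pool.Agent.Results.MP_5a30bb_gt.SecondKind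

open Pool.Agent.W666.GB Pool.Agent.W669.HD Pool.Agent.Y519.HB Run7.h951.Hyp
open Pool.Agent.N565.LZ (CausalOn CausalBlocks SecForm)

/-- The pointwise bound. -/
def Pointwise : Prop :=
  ∀ (m : ℕ) (V : Type) [NormedAddCommGroup V] [InnerProductSpace ℝ V]
    (e : OrthonormalBasis (Fin m × Bool) ℝ V) (R : V → V → V → V → ℝ) (δ : ℝ),
    0 ≤ δ → ConeSum e δ R → roundGB m δ ≤ (-1) ^ m * gbc e R

/-- The sign on all even-dimensional subspaces, in any dimension. -/
def Subspaces : Prop :=
  ∀ (ι : Type) [Fintype ι] [DecidableEq ι] (V : Type) [NormedAddCommGroup V]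
    [InnerProductSpace ℝ V] (e : OrthonormalBasis ι ℝ V) (R : V → V → V → V → ℝ),
    ConeSum e 0 R → HopfOn ⊤ R

/-- The sign of the integral. -/
def IntegralSign : Prop :=
  ∀ (m : ℕ) (M : Type) [MeasurableSpace M] (μ : MeasureTheory.Measure M) (K : CurvField m M),
    (∀ p, ConeSum (K.e p) 0 (K.R p)) → 0 ≤ (-1) ^ m * ∫ p, K.gb p ∂μ

/-- The lower bound for the integral. -/
def IntegralBound : Prop :=
  ∀ (m : ℕ) (M : Type) [MeasurableSpace M] (μ : MeasureTheory.Measure M)
    [MeasureTheory.IsFiniteMeasure μ] (K : CurvField m M) (δ : ℝ),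
    MeasureTheory.Integrable K.gb μ → 0 ≤ δ → (∀ p, ConeSum (K.e p) δ (K.R p)) →
      roundGB m δ * μ.real Set.univ ≤ (-1) ^ m * ∫ p, K.gb p ∂μ

/-- The pointwise bound for operators of the second kind. -/
def SecondPointwise : Prop :=
  ∀ (m : ℕ) (V : Type) [NormedAddCommGroup V] [InnerProductSpace ℝ V]
    (e : OrthonormalBasis (Fin m × Bool) ℝ V) (R : V → V → V → V → ℝ) (δ : ℝ),
    0 ≤ δ → SecondLe e δ R → roundGB m δ ≤ (-1) ^ m * gbc e R

/-- The integrated forms for operators of the second kind. -/
def SecondIntegral : Prop :=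
  (∀ (m : ℕ) (M : Type) [MeasurableSpace M] (μ : MeasureTheory.Measure M) (K : CurvField m M),
    (∀ p, SecondLe (K.e p) 0 (K.R p)) → 0 ≤ (-1) ^ m * ∫ p, K.gb p ∂μ) ∧
  ∀ (m : ℕ) (M : Type) [MeasurableSpace M] (μ : MeasureTheory.Measure M)
    [MeasureTheory.IsFiniteMeasure μ] (K : CurvField m M) (δ : ℝ),
    MeasureTheory.Integrable K.gb μ → 0 ≤ δ → (∀ p, SecondLe (K.e p) δ (K.R p)) →
      roundGB m δ * μ.real Set.univ ≤ (-1) ^ m * ∫ p, K.gb p ∂μ

/-- Submanifolds of arbitrary codimension; `W` is the normal space, `A` the curvature tensor of the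
ambient space on the tangent space `V`, `β` the second fundamental form. -/
def Submanifolds : Prop :=
  ∀ (m : ℕ) (V W : Type) [NormedAddCommGroup V] [InnerProductSpace ℝ V]
    [NormedAddCommGroup W] [InnerProductSpace ℝ W] [FiniteDimensional ℝ W]
    (e : OrthonormalBasis (Fin m × Bool) ℝ V) (A : V → V → V → V → ℝ) (β : V → V → W) (c δ : ℝ),
    SecForm β → 0 ≤ δ → δ ≤ c → (∀ x, ‖β x x‖ ^ 2 ≤ (c - δ) * ‖x‖ ^ 4) → ConeSum e c A →
    roundGB m δ ≤ (-1) ^ m * gbc e (fun x y z w => A x y z w +
      (inner ℝ (β x z) (β y w) - inner ℝ (β x w) (β y z)))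

/-- Comparison with the starting result `CausalSecondForm`. -/
def Contains : Prop :=
  ∀ (ι : Type) [Fintype ι] [DecidableEq ι] (V : Type) [NormedAddCommGroup V]
    [InnerProductSpace ℝ V] (e : OrthonormalBasis ι ℝ V) (R : V → V → V → V → ℝ) (δ : ℝ),
    CausalBlocks δ R → ConeSum e δ R

theorem result : Pointwise ∧ Subspaces ∧ IntegralSign ∧ IntegralBound ∧ SecondPointwise ∧
    SecondIntegral ∧ Submanifolds ∧ Contains :=
  ⟨fun _ _ _ _ e _ _ hδ h => coneSum_bound e hδ h,
    fun _ _ _ _ _ _ _ _ h => coneSum_hopfOn h,
    fun _ _ _ μ K h => field_cone μ K h,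
    fun _ _ _ μ _ K _ hi hδ h => field_coneδ μ K hi hδ h,
    fun _ _ _ _ e _ _ hδ h => coneSum_bound e hδ h.coneSum,
    ⟨fun _ _ _ μ K h => field_cone μ K fun p => (h p).coneSum,
      fun _ _ _ μ _ K _ hi hδ h => field_coneδ μ K hi hδ fun p => (h p).coneSum⟩,
    fun _ _ _ _ _ _ _ _ e _ _ _ _ hs hδ hc hβ hA => coneSum_bound e hδ (submanifold hs hc hβ hA),
    fun _ _ _ _ _ _ e _ _ h => CausalBlocks_coneSum h e⟩

end Pool.Agent.Results.MP_5a30bb_gt.SecondKind
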